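import Pool.Agent.Y412.QF.HbeA
import Pool.Agent.Y752.QF.Stm4
import Pool.Agent.H355R3.RZ4_HE
import Pool.Agent.H423R2.RZL.HI

set_option autoImplicit false

/-! Project QF, tasks HBL and HBE. The first part (HBL) is copied from helper770. -/

namespace Pool.Agent.Y412.QF

open Finset
open Pool.Agent.H306R2.RZ (js osf sqf LSB LSP)

lemma lsp (n : ℕ) : LSP (((n : ℝ) + 2) / ((n : ℝ) + 1)) := by
  induction n with
  | zero =>
    have h := Pool.Agent.H355R3.RZ4HE.HE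
    have e : (((0 : ℕ) : ℝ) + 2) / (((0 : ℕ) : ℝ) + 1) = 2 := by norm_num
    rw [e]
    exact h
  | succ n ih =>
    have hn : (0 : ℝ) ≤ n := Nat.cast_nonneg n
    have h1 : 1 < ((n : ℝ) + 2) / ((n : ℝ) + 1) := by
      rw [one_lt_div (by positivity)]; linarith
    have h2 : ((n : ℝ) + 2) / ((n : ℝ) + 1) ≤ 2 := by
      rw [div_le_iff₀ (by positivity)]; linarith
    have h := Pool.Agent.H423R2.RZL.HI _ h1 h2 ih
    have e : (((n + 1 : ℕ) : ℝ) + 2) / (((n + 1 : ℕ) : ℝ) + 1) =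
        2 - 1 / (((n : ℝ) + 2) / ((n : ℝ) + 1)) := by
      push_cast
      have h3 : (n : ℝ) + 1 ≠ 0 := by positivity
      have h4 : (n : ℝ) + 2 ≠ 0 := by positivity
      have h5 : (n : ℝ) + 1 + 1 ≠ 0 := by positivity
      field_simp
      ring
    rw [e]
    exact h

lemma LSB_mono {M N : ℕ} {B B' : ℝ} (h : LSB M N B) (hB : B ≤ B') : LSB M N B' := fun a =>
  (h a).trans (mul_le_mul_of_nonneg_right hB (sum_nonneg fun _ _ => by positivity))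

lemma lsb (ε : ℝ) (hε : 0 < ε) : ∃ C : ℝ, 0 < C ∧ ∀ M N : ℕ, 1 ≤ M → 1 ≤ N →
    LSB M N (C * ((M : ℝ) * N) ^ ε * (M + N)) := by
  obtain ⟨n, hn⟩ := exists_nat_gt (2 / ε)
  obtain ⟨C, hC, h⟩ := lsp n (ε / 2) (by positivity)
  refine ⟨C, hC, fun M N hM hN => LSB_mono (h M N hM hN) ?_⟩
  have hM1 : (1 : ℝ) ≤ M := by exact_mod_cast hM
  have hN1 : (1 : ℝ) ≤ N := by exact_mod_cast hN
  have hN0 : (0 : ℝ) < N := by linarith
  have hMN1 : (1 : ℝ) ≤ (M : ℝ) * N := by nlinarith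
  have hn0 : (0 : ℝ) < (n : ℝ) + 1 := by positivity
  have hexp : ((n : ℝ) + 2) / ((n : ℝ) + 1) = 1 + 1 / ((n : ℝ) + 1) := by
    field_simp
    ring
  have h1 : (N : ℝ) ^ (((n : ℝ) + 2) / ((n : ℝ) + 1)) ≤ N * ((M : ℝ) * N) ^ (ε / 2) := by
    rw [hexp, Real.rpow_add hN0, Real.rpow_one]
    refine mul_le_mul_of_nonneg_left ?_ hN0.le
    calc (N : ℝ) ^ (1 / ((n : ℝ) + 1)) ≤ ((M : ℝ) * N) ^ (1 / ((n : ℝ) + 1)) := by
          refine Real.rpow_le_rpow hN0.le ?_ (by positivity)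
          nlinarith
      _ ≤ ((M : ℝ) * N) ^ (ε / 2) := by
          refine Real.rpow_le_rpow_of_exponent_le hMN1 ?_
          rw [div_le_iff₀ hn0]
          rw [div_lt_iff₀ hε] at hn
          nlinarith
  have h2 : (1 : ℝ) ≤ ((M : ℝ) * N) ^ (ε / 2) := Real.one_le_rpow hMN1 (by positivity)
  have h3 : (M : ℝ) + (N : ℝ) ^ (((n : ℝ) + 2) / ((n : ℝ) + 1)) ≤
      ((M : ℝ) * N) ^ (ε / 2) * (M + N) := by
    nlinarith
  have h4 : ((M : ℝ) * N) ^ ε = ((M : ℝ) * N) ^ (ε / 2) * ((M : ℝ) * N) ^ (ε / 2) := by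
    rw [← Real.rpow_add (by linarith)]
    congr 1
    ring
  calc C * ((M : ℝ) * N) ^ (ε / 2) * (M + (N : ℝ) ^ (((n : ℝ) + 2) / ((n : ℝ) + 1)))
      ≤ C * ((M : ℝ) * N) ^ (ε / 2) * (((M : ℝ) * N) ^ (ε / 2) * (M + N)) :=
        mul_le_mul_of_nonneg_left h3 (by positivity)
    _ = _ := by rw [h4]; ring


theorem HBL : Pool.Agent.Y752.QF.S_HBL := fun ε hε => lsb ε hε

theorem HBE (h : Pool.Agent.Y752.QF.S_HBL) : Pool.Agent.Y752.QF.S_HBE := by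
  intro ε hε
  obtain ⟨C, hC, h1⟩ := hbe h ε hε
  exact ⟨C, hC, fun N E l a hN hE _ ha => h1 N E l a hN hE ha⟩

end Pool.Agent.Y412.QF
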