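import Pool.Agent.H306R2.RZ.Defs4

set_option autoImplicit false

/-! Project QF, task HBE: duality and the decomposition into squares and squarefree parts. -/

namespace Pool.Agent.Y412.QF

open Finset
open Pool.Agent.H306R2.RZ (js osf sqf LSB LSP)

theorem dual {M N : ℕ} {B : ℝ} (hB0 : 0 ≤ B) (h : LSB M N B) (b : ℕ → ℝ) :
    ∑ n ∈ osf N, (∑ m ∈ sqf M, b m * js m n) ^ 2 ≤ B * ∑ m ∈ sqf M, b m ^ 2 := by
  set T : ℕ → ℝ := fun n => ∑ m ∈ sqf M, b m * js m n with hT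
  set X : ℝ := ∑ n ∈ osf N, T n ^ 2 with hX
  set U : ℕ → ℝ := fun m => ∑ n ∈ osf N, T n * js m n with hU
  have hX0 : 0 ≤ X := sum_nonneg fun _ _ => sq_nonneg _
  have h1 : ∑ m ∈ sqf M, U m ^ 2 ≤ B * X := by
    have h2 := h (fun n => (T n : ℂ))
    have e1 : ∀ m : ℕ, ‖∑ n ∈ osf N, (T n : ℂ) * (js m n : ℂ)‖ ^ 2 = U m ^ 2 := by
      intro m
      have e2 : ∑ n ∈ osf N, (T n : ℂ) * (js m n : ℂ) = ((U m : ℝ) : ℂ) := by
        rw [hU]
        push_cast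
        rfl
      rw [e2, Complex.norm_real, Real.norm_eq_abs, sq_abs]
    have e3 : ∀ n : ℕ, ‖(T n : ℂ)‖ ^ 2 = T n ^ 2 := by
      intro n
      rw [Complex.norm_real, Real.norm_eq_abs, sq_abs]
    simp only [e1, e3] at h2
    exact h2
  have h3 : X = ∑ m ∈ sqf M, b m * U m := by
    rw [hX]
    have e1 : ∀ n ∈ osf N, T n ^ 2 = ∑ m ∈ sqf M, b m * (T n * js m n) := by
      intro n _
      have : T n ^ 2 = T n * ∑ m ∈ sqf M, b m * js m n := by rw [pow_two]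
      rw [this, mul_sum]
      exact sum_congr rfl fun m _ => by ring
    rw [sum_congr rfl e1, sum_comm]
    refine sum_congr rfl fun m _ => ?_
    rw [hU, mul_sum]
  have h4 : X ^ 2 ≤ (∑ m ∈ sqf M, b m ^ 2) * ∑ m ∈ sqf M, U m ^ 2 := by
    conv_lhs => rw [h3]
    exact sum_mul_sq_le_sq_mul_sq _ _ _
  have hb0 : 0 ≤ ∑ m ∈ sqf M, b m ^ 2 := sum_nonneg fun _ _ => sq_nonneg _
  rcases eq_or_lt_of_le hX0 with h5 | h5
  · rw [← h5]
    positivity
  · have h6 : X * X ≤ X * (B * ∑ m ∈ sqf M, b m ^ 2) := by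
      calc X * X = X ^ 2 := by ring
        _ ≤ (∑ m ∈ sqf M, b m ^ 2) * ∑ m ∈ sqf M, U m ^ 2 := h4
        _ ≤ (∑ m ∈ sqf M, b m ^ 2) * (B * X) := mul_le_mul_of_nonneg_left h1 hb0
        _ = X * (B * ∑ m ∈ sqf M, b m ^ 2) := by ring
    exact le_of_mul_le_mul_left h6 h5

theorem dvd_aux {a a' c c' : ℕ} (ha' : Squarefree a') (hc : c ≠ 0)
    (h : c ^ 2 * a = c' ^ 2 * a') : c ∣ c' := by
  have h1 : c ^ 2 ∣ c' ^ 2 * a' := ⟨a, h.symm⟩
  -- the gcd
  obtain ⟨d, hd⟩ : ∃ d, d = Nat.gcd c c' := ⟨_, rfl⟩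
  have hd0 : 0 < d := by rw [hd]; exact Nat.gcd_pos_of_pos_left _ (Nat.pos_of_ne_zero hc)
  obtain ⟨x, hx⟩ : d ∣ c := hd ▸ Nat.gcd_dvd_left c c'
  obtain ⟨y, hy⟩ : d ∣ c' := hd ▸ Nat.gcd_dvd_right c c'
  have hcop : Nat.Coprime x y := by
    have h2 := Nat.coprime_div_gcd_div_gcd (m := c) (n := c') (hd ▸ hd0)
    rw [← hd, hx, hy, Nat.mul_div_cancel_left _ hd0, Nat.mul_div_cancel_left _ hd0] at h2
    exact h2
  have h2 : x ^ 2 ∣ y ^ 2 * a' := by
    rw [hx, hy, mul_pow, mul_pow, mul_assoc] at h1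
    exact Nat.dvd_of_mul_dvd_mul_left (pow_pos hd0 2) h1
  have h3 : x ^ 2 ∣ a' := (Nat.Coprime.pow 2 2 hcop).dvd_of_dvd_mul_left h2
  have h4 : x = 1 := by
    have h5 : IsUnit x := ha' x (by rw [← pow_two]; exact h3)
    exact Nat.isUnit_iff.1 h5
  rw [hx, h4, mul_one]
  exact ⟨y, hy⟩

theorem uniq {a a' c c' : ℕ} (ha : Squarefree a) (ha' : Squarefree a') (hc : c ≠ 0) (hc' : c' ≠ 0)
    (h : c ^ 2 * a = c' ^ 2 * a') : c = c' ∧ a = a' := by
  have h1 : c = c' := Nat.dvd_antisymm (dvd_aux ha' hc h) (dvd_aux ha hc' h.symm)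
  subst h1
  exact ⟨rfl, Nat.eq_of_mul_eq_mul_left (pow_pos (Nat.pos_of_ne_zero hc) 2) h⟩

/-- sums over all numbers as double sums -/
theorem sum_sq (E : ℕ) (H : ℕ → ℝ) :
    ∑ e ∈ Icc 1 E, H e = ∑ f ∈ Icc 1 E, ∑ g ∈ sqf (E / f ^ 2), H (f ^ 2 * g) := by
  rw [Finset.sum_sigma']
  symm
  refine Finset.sum_bij (fun p _ => p.1 ^ 2 * p.2) ?_ ?_ ?_ ?_
  · rintro ⟨f, g⟩ hp
    simp only [mem_sigma, mem_Icc, sqf, mem_filter] at hp ⊢
    obtain ⟨⟨hf1, hf2⟩, ⟨hg1, hg2⟩, hg3⟩ := hp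
    have hf : 0 < f ^ 2 := by positivity
    rw [Nat.le_div_iff_mul_le hf, mul_comm] at hg2
    exact ⟨Nat.mul_pos hf hg1, hg2⟩
  · rintro ⟨f, g⟩ hp ⟨f', g'⟩ hp' h
    simp only [mem_sigma, mem_Icc, sqf, mem_filter] at hp hp' h
    obtain ⟨h1, h2⟩ := uniq hp.2.2 hp'.2.2 (by omega) (by omega) h
    subst h1
    subst h2
    rfl
  · intro e he
    rw [mem_Icc] at he
    obtain ⟨g, f, hg, hf, hfg, hsq⟩ := Nat.sq_mul_squarefree_of_pos (n := e) (by omega)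
    refine ⟨⟨f, g⟩, ?_, hfg⟩
    simp only [mem_sigma, mem_Icc, sqf, mem_filter]
    have hf2 : 0 < f ^ 2 := by positivity
    have hfe : f ≤ E := by
      have h1 : f ≤ f ^ 2 := Nat.le_self_pow (by norm_num) f
      have h2 : f ^ 2 ≤ f ^ 2 * g := Nat.le_mul_of_pos_right _ hg
      omega
    refine ⟨⟨hf, hfe⟩, ⟨hg, ?_⟩, hsq⟩
    rw [Nat.le_div_iff_mul_le hf2, mul_comm, hfg]
    exact he.2
  · rintro ⟨f, g⟩ _
    rfl

theorem js_sq (f g n : ℕ) (hn : 0 < n) :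
    js ((f ^ 2 * g : ℕ) : ℤ) n = if Nat.Coprime f n then js g n else 0 := by
  unfold js
  rw [Nat.cast_mul, jacobiSym.mul_left, Nat.cast_pow, jacobiSym.pow_left]
  split_ifs with h
  · have h1 : jacobiSym (f : ℤ) n ^ 2 = 1 := by
      apply jacobiSym.sq_one
      exact h
    rw [h1, one_mul]
  · have hne : NeZero n := ⟨hn.ne'⟩
    have h1 : jacobiSym (f : ℤ) n = 0 := by
      rw [jacobiSym.eq_zero_iff_not_coprime]
      exact h
    rw [h1]
    simp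

/-- the inner sum -/
theorem inner_eq (E l a n : ℕ) (hn : 0 < n) (ha : a % 2 = 1) :
    ∑ e ∈ (Icc 1 E).filter (fun e => e % 8 = a ∧ Nat.Coprime e l), js e n =
      ∑ f ∈ Icc 1 E, (if Nat.Coprime f n then (1 : ℝ) else 0) *
        ((if f % 2 = 1 ∧ Nat.Coprime f l then (1 : ℝ) else 0) *
          ∑ g ∈ sqf (E / f ^ 2), (if g % 8 = a ∧ Nat.Coprime g l then (1 : ℝ) else 0) * js g n) := by
  rw [sum_filter, sum_sq E (fun e => if e % 8 = a ∧ Nat.Coprime e l then js e n else 0)]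
  refine sum_congr rfl fun f _ => ?_
  rw [mul_sum, mul_sum]
  refine sum_congr rfl fun g _ => ?_
  rw [js_sq f g n hn]
  have hiff : ((f ^ 2 * g) % 8 = a ∧ Nat.Coprime (f ^ 2 * g) l) ↔
      (f % 2 = 1 ∧ Nat.Coprime f l) ∧ (g % 8 = a ∧ Nat.Coprime g l) := by
    rw [Nat.coprime_mul_iff_left, Nat.coprime_pow_left_iff (by norm_num)]
    have h1 : (f ^ 2 * g) % 8 = a ↔ f % 2 = 1 ∧ g % 8 = a := by
      rcases Nat.even_or_odd' f with ⟨k, hk | hk⟩
      · have h2 : (f ^ 2 * g) % 2 = 0 := by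
          rw [hk]
          have : (2 * k) ^ 2 * g = 2 * (2 * k ^ 2 * g) := by ring
          rw [this]
          omega
        constructor
        · intro h3
          omega
        · rintro ⟨h3, _⟩
          omega
      · have h2 : f ^ 2 % 8 = 1 := by
          obtain ⟨j, hj⟩ : 2 ∣ k * (k + 1) := (Nat.even_mul_succ_self k).two_dvd
          have : f ^ 2 = 8 * j + 1 := by
            rw [hk]
            have : (2 * k + 1) ^ 2 = 4 * (k * (k + 1)) + 1 := by ring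
            rw [this, hj]
            ring
          omega
        rw [Nat.mul_mod, h2, one_mul, Nat.mod_mod]
        constructor
        · intro h3
          exact ⟨by omega, h3⟩
        · intro h3
          exact h3.2
    rw [h1]
    tauto
  by_cases h1 : Nat.Coprime f n
  · by_cases h2 : f % 2 = 1 ∧ Nat.Coprime f l
    · by_cases h3 : g % 8 = a ∧ Nat.Coprime g l
      · rw [if_pos (hiff.2 ⟨h2, h3⟩), if_pos h1, if_pos h1, if_pos h2, if_pos h3]
        ring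
      · rw [if_neg (fun h => h3 (hiff.1 h).2), if_neg h3]
        ring
    · rw [if_neg (fun h => h2 (hiff.1 h).1), if_neg h2]
      ring
  · rw [if_neg h1, if_neg h1]
    simp

theorem harm (ε : ℝ) (hε : 0 < ε) : ∃ C : ℝ, 0 < C ∧ ∀ E : ℕ, 1 ≤ E →
    (∑ f ∈ Icc 1 E, 1 / (f : ℝ)) ≤ C * (E : ℝ) ^ ε := by
  refine ⟨1 + 1 / ε, by positivity, fun E hE => ?_⟩
  have hE1 : (1 : ℝ) ≤ E := by exact_mod_cast hE
  have h1 : (∑ f ∈ Icc 1 E, 1 / (f : ℝ)) ≤ 1 + Real.log E := by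
    have h2 := harmonic_le_one_add_log E
    rw [harmonic_eq_sum_Icc] at h2
    push_cast at h2
    simpa only [one_div] using h2
  have h3 : Real.log E ≤ (E : ℝ) ^ ε / ε := Real.log_le_rpow_div (by linarith) hε
  have h4 : (1 : ℝ) ≤ (E : ℝ) ^ ε := Real.one_le_rpow hE1 hε.le
  calc (∑ f ∈ Icc 1 E, 1 / (f : ℝ)) ≤ 1 + Real.log E := h1
    _ ≤ (E : ℝ) ^ ε + (E : ℝ) ^ ε / ε := add_le_add h4 h3
    _ = (1 + 1 / ε) * (E : ℝ) ^ ε := by ring

/-- the bound for the sums over all numerators -/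
theorem hbe (h : ∀ ε : ℝ, 0 < ε → ∃ C : ℝ, 0 < C ∧ ∀ M N : ℕ, 1 ≤ M → 1 ≤ N →
      LSB M N (C * ((M : ℝ) * N) ^ ε * (M + N)))
    (ε : ℝ) (hε : 0 < ε) : ∃ C : ℝ, 0 < C ∧ ∀ N E l a : ℕ, 1 ≤ N → 1 ≤ E → a % 2 = 1 →
  ∑ n ∈ osf N, |∑ e ∈ (Finset.Icc 1 E).filter (fun e => e % 8 = a ∧ Nat.Coprime e l), js e n| ^ 2 ≤
    C * ((N : ℝ) * E) ^ ε * (N * E + (E : ℝ) ^ 2) := by
  obtain ⟨C₁, hC₁, h₁⟩ := h (ε / 2) (by positivity)
  obtain ⟨C₂, hC₂, h₂⟩ := harm (ε / 4) (by positivity)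
  refine ⟨C₁ * C₂ ^ 2, by positivity, ?_⟩
  intro N E l a hN hE ha
  have hN1 : (1 : ℝ) ≤ N := by exact_mod_cast hN
  have hE1 : (1 : ℝ) ≤ E := by exact_mod_cast hE
  have hNE1 : (1 : ℝ) ≤ (N : ℝ) * E := by nlinarith
  set R : ℝ := ∑ f ∈ Icc 1 E, 1 / (f : ℝ) with hR
  have hR0 : 0 ≤ R := sum_nonneg fun _ _ => by positivity
  set u : ℕ → ℕ → ℝ := fun f n => (if f % 2 = 1 ∧ Nat.Coprime f l then (1 : ℝ) else 0) *
          ∑ g ∈ sqf (E / f ^ 2), (if g % 8 = a ∧ Nat.Coprime g l then (1 : ℝ) else 0) * js g n with hu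
  -- each square part
  have hf : ∀ f ∈ Icc 1 E, ∑ n ∈ osf N, (f : ℝ) * u f n ^ 2 ≤
      C₁ * ((N : ℝ) * E) ^ (ε / 2) * (N * E + (E : ℝ) ^ 2) * (1 / (f : ℝ)) := by
    intro f hf
    rw [mem_Icc] at hf
    have hf1 : (1 : ℝ) ≤ f := by exact_mod_cast hf.1
    have hf0 : (0 : ℝ) < f := by linarith
    have hRHS0 : 0 ≤ C₁ * ((N : ℝ) * E) ^ (ε / 2) * (N * E + (E : ℝ) ^ 2) * (1 / (f : ℝ)) := by positivity
    set M : ℕ := E / f ^ 2 with hM
    rcases Nat.eq_zero_or_pos M with hM0 | hM0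
    · have h3 : ∀ n ∈ osf N, (f : ℝ) * u f n ^ 2 = 0 := by
        intro n _
        have h4 : sqf M = ∅ := by
          rw [hM0]
          unfold sqf
          simp
        have h5 : u f n = 0 := by
          rw [hu]
          simp only
          rw [← hM, h4, sum_empty, mul_zero]
        rw [h5]
        ring
      rw [sum_congr rfl h3, sum_const_zero]
      exact hRHS0
    · have hM1 : (1 : ℝ) ≤ M := by exact_mod_cast hM0
      have hME : (M : ℝ) ≤ (E : ℝ) / (f : ℝ) ^ 2 := by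
        have : ((E / f ^ 2 : ℕ) : ℝ) ≤ (E : ℝ) / ((f ^ 2 : ℕ) : ℝ) := Nat.cast_div_le
        rw [Nat.cast_pow] at this
        exact this
      have hME' : (M : ℝ) ≤ E := by
        refine hME.trans (div_le_self (by linarith) ?_)
        exact one_le_pow₀ hf1
      have hB0 : 0 ≤ C₁ * ((M : ℝ) * N) ^ (ε / 2) * (M + N) := by positivity
      have h3 := dual hB0 (h₁ M N hM0 hN) (fun g => if g % 8 = a ∧ Nat.Coprime g l then (1 : ℝ) else 0)
      have h4 : ∑ m ∈ sqf M, (if m % 8 = a ∧ Nat.Coprime m l then (1 : ℝ) else 0) ^ 2 ≤ M := by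
        have h5 : ∀ m ∈ sqf M, (if m % 8 = a ∧ Nat.Coprime m l then (1 : ℝ) else 0) ^ 2 ≤ 1 := by
          intro m _
          split_ifs <;> norm_num
        refine (sum_le_sum h5).trans ?_
        rw [sum_const, nsmul_eq_mul, mul_one]
        have h6 : (sqf M).card ≤ M := by
          unfold sqf
          refine (card_filter_le _ _).trans ?_
          rw [Nat.card_Icc]
          omega
        exact_mod_cast h6
      have h5 : ∑ n ∈ osf N, u f n ^ 2 ≤ C₁ * ((M : ℝ) * N) ^ (ε / 2) * (M + N) * M := by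
        refine le_trans (sum_le_sum fun n _ => ?_) (h3.trans (mul_le_mul_of_nonneg_left h4 hB0))
        rw [hu]
        simp only
        rw [mul_pow]
        have h6 : (if f % 2 = 1 ∧ Nat.Coprime f l then (1 : ℝ) else 0) ^ 2 ≤ 1 := by
          split_ifs <;> norm_num
        exact mul_le_of_le_one_left (sq_nonneg _) h6
      rw [← mul_sum]
      have h7 : ((M : ℝ) * N) ^ (ε / 2) ≤ ((N : ℝ) * E) ^ (ε / 2) := by
        apply Real.rpow_le_rpow (by positivity) _ (by positivity)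
        nlinarith
      have h8 : (f : ℝ) * (((M : ℝ) + N) * M) ≤ (N * E + (E : ℝ) ^ 2) * (1 / (f : ℝ)) := by
        have h9 : (f : ℝ) * M ≤ E * (1 / f) := by
          calc (f : ℝ) * M ≤ f * ((E : ℝ) / (f : ℝ) ^ 2) := mul_le_mul_of_nonneg_left hME hf0.le
            _ = E * (1 / f) := by field_simp
        calc (f : ℝ) * (((M : ℝ) + N) * M) = (f * M) * (M + N) := by ring
          _ ≤ (E * (1 / f)) * (E + N) := by
              apply mul_le_mul h9 (by linarith) (by positivity) (by positivity)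
          _ = _ := by ring
      calc (f : ℝ) * ∑ n ∈ osf N, u f n ^ 2 ≤ f * (C₁ * ((M : ℝ) * N) ^ (ε / 2) * (M + N) * M) :=
            mul_le_mul_of_nonneg_left h5 hf0.le
        _ = (C₁ * ((M : ℝ) * N) ^ (ε / 2)) * (f * ((M + N) * M)) := by ring
        _ ≤ (C₁ * ((N : ℝ) * E) ^ (ε / 2)) * ((N * E + (E : ℝ) ^ 2) * (1 / (f : ℝ))) := by
            apply mul_le_mul _ h8 (by positivity) (by positivity)
            exact mul_le_mul_of_nonneg_left h7 hC₁.le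
        _ = _ := by ring
  -- Cauchy-Schwarz
  have hcs : ∀ n ∈ osf N, |∑ e ∈ (Finset.Icc 1 E).filter (fun e => e % 8 = a ∧ Nat.Coprime e l), js e n| ^ 2 ≤
      R * ∑ f ∈ Icc 1 E, (f : ℝ) * u f n ^ 2 := by
    intro n hn
    have hn0 : 0 < n := by
      unfold osf at hn
      rw [mem_filter, mem_Icc] at hn
      omega
    rw [sq_abs, inner_eq E l a n hn0 ha]
    have h3 := sum_mul_sq_le_sq_mul_sq (Icc 1 E) (fun f : ℕ => Real.sqrt (1 / (f : ℝ)))
      (fun f : ℕ => Real.sqrt f * ((if Nat.Coprime f n then (1 : ℝ) else 0) * u f n))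
    have h4 : ∑ f ∈ Icc 1 E, Real.sqrt (1 / (f : ℝ)) *
        (Real.sqrt f * ((if Nat.Coprime f n then (1 : ℝ) else 0) * u f n)) =
        ∑ f ∈ Icc 1 E, (if Nat.Coprime f n then (1 : ℝ) else 0) * u f n := by
      refine sum_congr rfl fun f hf => ?_
      rw [mem_Icc] at hf
      have hf0 : (0 : ℝ) < f := by exact_mod_cast hf.1
      rw [← mul_assoc, ← Real.sqrt_mul (by positivity), one_div, inv_mul_cancel₀ hf0.ne', Real.sqrt_one,
        one_mul]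
    have h5 : ∑ f ∈ Icc 1 E, Real.sqrt (1 / (f : ℝ)) ^ 2 = R := by
      refine sum_congr rfl fun f _ => ?_
      rw [Real.sq_sqrt (by positivity)]
    rw [h4, h5] at h3
    refine h3.trans (mul_le_mul_of_nonneg_left (sum_le_sum fun f _ => ?_) hR0)
    rw [mul_pow, Real.sq_sqrt (Nat.cast_nonneg _), mul_pow]
    have h6 : (if Nat.Coprime f n then (1 : ℝ) else 0) ^ 2 ≤ 1 := by
      split_ifs <;> norm_num
    exact mul_le_mul_of_nonneg_left (mul_le_of_le_one_left (sq_nonneg _) h6) (Nat.cast_nonneg _)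
  refine (sum_le_sum hcs).trans ?_
  rw [← mul_sum, sum_comm]
  have h3 : ∑ f ∈ Icc 1 E, ∑ n ∈ osf N, (f : ℝ) * u f n ^ 2 ≤
      C₁ * ((N : ℝ) * E) ^ (ε / 2) * (N * E + (E : ℝ) ^ 2) * R := by
    refine (sum_le_sum hf).trans ?_
    rw [← mul_sum]
  have h4 : R ≤ C₂ * ((N : ℝ) * E) ^ (ε / 4) := by
    refine (h₂ E hE).trans (mul_le_mul_of_nonneg_left ?_ hC₂.le)
    apply Real.rpow_le_rpow (by positivity) _ (by positivity)
    nlinarith
  have h5 : ((N : ℝ) * E) ^ ε = ((N : ℝ) * E) ^ (ε / 2) * (((N : ℝ) * E) ^ (ε / 4) * ((N : ℝ) * E) ^ (ε / 4)) := by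
    rw [← Real.rpow_add (by linarith), ← Real.rpow_add (by linarith)]
    congr 1
    ring
  calc R * ∑ f ∈ Icc 1 E, ∑ n ∈ osf N, (f : ℝ) * u f n ^ 2
      ≤ R * (C₁ * ((N : ℝ) * E) ^ (ε / 2) * (N * E + (E : ℝ) ^ 2) * R) :=
        mul_le_mul_of_nonneg_left h3 hR0
    _ = (C₁ * ((N : ℝ) * E) ^ (ε / 2) * (N * E + (E : ℝ) ^ 2)) * (R * R) := by ring
    _ ≤ (C₁ * ((N : ℝ) * E) ^ (ε / 2) * (N * E + (E : ℝ) ^ 2)) *
        ((C₂ * ((N : ℝ) * E) ^ (ε / 4)) * (C₂ * ((N : ℝ) * E) ^ (ε / 4))) := by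
        apply mul_le_mul_of_nonneg_left _ (by positivity)
        exact mul_le_mul h4 h4 hR0 (by positivity)
    _ = C₁ * C₂ ^ 2 * ((N : ℝ) * E) ^ ε * (N * E + (E : ℝ) ^ 2) := by rw [h5]; ring

end Pool.Agent.Y412.QF
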